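import Pool.Agent.helper11.VQ.Spec3a

/-!
# Row vq:KSZ (MP_07c750_an): the kernels of the steps and of the words
-/

set_option autoImplicit false

open scoped ENNReal ComplexConjugate
open MeasureTheory Filter Set

namespace Pool.Agent.VQ

section

variable {Γ : Type} [Group Γ] {Y : Type} [MeasurableSpace Y] [MulAction Γ Y] {d : Y → Y → ℝ}

theorem KSZ_stK {θ : Y → ℝ} {u : Y → Y → ℂ} (hθ : Measurable θ) (hi : ∀ (γ : Γ) y, θ (γ • y) = θ y)
    (hu : KZ Γ d u) : KZ Γ d (stZ θ u) := by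
  obtain ⟨B, hB⟩ := hu.bdd
  obtain ⟨T, hT⟩ := hu.range
  refine ⟨?_, ⟨B, fun x y => ?_⟩, fun γ x y => ?_, ⟨T, fun x y h => hT x y (right_ne_zero_of_mul h)⟩⟩
  · have h1 : Measurable (fun p : Y × Y => Complex.exp (((θ p.1 : ℝ) : ℂ) * Complex.I)) :=
      Complex.measurable_exp.comp ((Complex.measurable_ofReal.comp (hθ.comp measurable_fst)).mul measurable_const)
    exact h1.mul hu.meas
  · unfold stZ
    rw [norm_mul, Complex.norm_exp_ofReal_mul_I, one_mul]
    exact hB x y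
  · unfold stZ
    rw [hi, hu.inv]

theorem KSZ_ind {A : Set Y} (hAi : InvS Γ A) (γ : Γ) (y : Y) :
    A.indicator (fun _ => (1 : ℂ)) (γ • y) = A.indicator (fun _ => (1 : ℂ)) y := by
  by_cases h : y ∈ A
  · rw [indicator_of_mem h, indicator_of_mem ((hAi γ y).mpr h)]
  · rw [indicator_of_notMem h, indicator_of_notMem (fun h' => h ((hAi γ y).mp h'))]

theorem KSZ_indn (A : Set Y) (y : Y) : ‖A.indicator (fun _ => (1 : ℂ)) y‖ ≤ 1 := by
  by_cases h : y ∈ A
  · rw [indicator_of_mem h]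
    simp
  · rw [indicator_of_notMem h]
    simp

theorem KSZ_left {A : Set Y} (hA : MeasurableSet A) (hAi : InvS Γ A) {K : Y → Y → ℂ} (hK : KZ Γ d K) :
    KZ Γ d (fun x y => A.indicator (fun _ => (1 : ℂ)) x * K x y) := by
  obtain ⟨B, hB⟩ := hK.bdd
  obtain ⟨T, hT⟩ := hK.range
  refine ⟨?_, ⟨B, fun x y => ?_⟩, fun γ x y => ?_, ⟨T, fun x y h => hT x y (right_ne_zero_of_mul h)⟩⟩
  · have h1 : Measurable (fun p : Y × Y => A.indicator (fun _ => (1 : ℂ)) p.1) :=
      (measurable_const.indicator hA).comp measurable_fst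
    exact h1.mul hK.meas
  · rw [norm_mul]
    calc _ ≤ 1 * ‖K x y‖ := mul_le_mul_of_nonneg_right (KSZ_indn A x) (norm_nonneg _)
      _ = ‖K x y‖ := one_mul _
      _ ≤ B := hB x y
  · show A.indicator (fun _ => (1 : ℂ)) (γ • x) * K (γ • x) (γ • y) = _
    rw [KSZ_ind hAi, hK.inv]

theorem KSZ_right {A : Set Y} (hA : MeasurableSet A) (hAi : InvS Γ A) {K : Y → Y → ℂ} (hK : KZ Γ d K) :
    KZ Γ d (fun x y => K x y * A.indicator (fun _ => (1 : ℂ)) y) := by
  obtain ⟨B, hB⟩ := hK.bdd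
  obtain ⟨T, hT⟩ := hK.range
  refine ⟨?_, ⟨B, fun x y => ?_⟩, fun γ x y => ?_, ⟨T, fun x y h => hT x y (left_ne_zero_of_mul h)⟩⟩
  · have h1 : Measurable (fun p : Y × Y => A.indicator (fun _ => (1 : ℂ)) p.2) :=
      (measurable_const.indicator hA).comp measurable_snd
    exact hK.meas.mul h1
  · rw [norm_mul]
    calc _ ≤ ‖K x y‖ * 1 := mul_le_mul_of_nonneg_left (KSZ_indn A y) (norm_nonneg _)
      _ = ‖K x y‖ := mul_one _
      _ ≤ B := hB x y
  · show K (γ • x) (γ • y) * A.indicator (fun _ => (1 : ℂ)) (γ • y) = _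
    rw [KSZ_ind hAi, hK.inv]

end

theorem KSZ_proof (hKPZ : KPZ_stmt) : KSZ_stmt := by
  intro Γ _ Y _ _ m D d hP
  refine ⟨fun θ u hθ hi hu => KSZ_stK hθ hi hu, fun k A hk hA hAi => ?_⟩
  have hc := (hKPZ Γ Y m D d hP).2
  have h1 : ∀ n, KZ Γ d (itZ m k n) := by
    intro n
    induction n with
    | zero => exact hk
    | succ n ih => exact (hc _ _ hk ih).1
  refine ⟨h1, ?_⟩
  intro l
  induction l with
  | nil =>
    refine ⟨measurable_const, ⟨0, fun x y => ?_⟩, fun γ x y => rfl, ⟨0, fun x y h => absurd rfl h⟩⟩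
    show ‖(0 : ℂ)‖ ≤ 0
    simp
  | cons n l ih =>
    cases l with
    | nil => exact KSZ_right hA hAi (KSZ_left hA hAi (h1 n))
    | cons n' l => exact (hc _ _ (KSZ_left hA hAi (h1 n)) ih).1

end Pool.Agent.VQ
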