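import Pool.Agent.helper11.VQ.Spec3b

/-!
# Row vq:PARV (MP_07c750_an): the parameters (adaptation of helper77/RPQ/PAR)
-/

set_option autoImplicit false

open scoped ENNReal ComplexConjugate MatrixGroups UpperHalfPlane
open MeasureTheory Filter Set

namespace Pool.Agent.VQ

theorem PARV_log (c : ℝ) (hc : 0 < c) : ∀ᶠ x : ℝ in atTop, Real.log x ≤ c * x := by
  have h := Real.isLittleO_log_id_atTop.bound hc
  filter_upwards [h, eventually_ge_atTop (1 : ℝ)] with x hx hx1
  simp only [id, Real.norm_eq_abs] at hx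
  rw [abs_of_nonneg (Real.log_nonneg hx1), abs_of_nonneg (by linarith)] at hx
  exact hx

theorem PARV_proof : PARV_stmt := by
  intro N M1 C' ρ10 c hN hM1 hC' hρ10 hc
  have hN1 : (1 : ℝ) ≤ N := by exact_mod_cast hN
  obtain ⟨a, ha⟩ : ∃ a : ℝ, a = 64 * C' * N + 1 := ⟨_, rfl⟩
  have hCN : (1 : ℝ) ≤ C' * N := by
    have := mul_le_mul hC' hN1 zero_le_one (by linarith)
    linarith
  have ha1 : 1 ≤ a := by
    rw [ha]
    nlinarith
  have ha0 : 0 < a := by linarith
  have h1 : ∀ᶠ x : ℝ in atTop, Real.log x ≤ 1 / (5 * a) * x := PARV_log _ (by positivity)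
  have h2 : ∀ᶠ x : ℝ in atTop, x ^ (-a) ≤ ρ10 := (tendsto_rpow_neg_atTop ha0).eventually (eventually_le_nhds hρ10)
  have h3 : ∀ᶠ x : ℝ in atTop, 32 * (11 * M1 + 2 * C' * N) ≤ x := eventually_ge_atTop _
  have h4 : ∀ᶠ x : ℝ in atTop, Real.log x ≤ 1 / 96 * x := PARV_log _ (by norm_num)
  have h5 : ∀ᶠ x : ℝ in atTop, 2 ≤ x := eventually_ge_atTop _
  have h7 : ∀ᶠ x : ℝ in atTop, Real.log x ≤ c / a * x := PARV_log _ (by positivity)
  have h8 : ∀ᶠ x : ℝ in atTop, 1 / c ≤ x := eventually_ge_atTop _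
  have h6 := Real.tendsto_log_atTop.eventually
    (h1.and (h2.and (h3.and (h4.and (h5.and (h7.and h8))))))
  obtain ⟨R1, hR1⟩ := Filter.eventually_atTop.mp h6
  refine ⟨a, max 3 R1, ha1, le_max_left _ _, fun R ρ t hR hρ hρ' ht ht' => ?_⟩
  obtain ⟨g1, g2, g3, g4, g5, g7, g8⟩ := hR1 R ((le_max_right _ _).trans hR)
  have hR0 : 0 < R := by
    have := (le_max_left _ _).trans hR
    linarith
  obtain ⟨x, hx⟩ : ∃ x : ℝ, x = Real.log R := ⟨_, rfl⟩
  rw [← hx] at g1 g2 g3 g4 g5 g7 g8 hρ' ht ht'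
  have hRpow : ∀ y : ℝ, R ^ y = Real.exp (x * y) := fun y => by rw [Real.rpow_def_of_pos hR0, hx]
  have hx0 : 0 < x := by linarith
  have hlx : 0 < Real.log x := Real.log_pos (by linarith)
  have hxpow : ∀ y : ℝ, x ^ y = Real.exp (Real.log x * y) := fun y => Real.rpow_def_of_pos hx0 y
  have hlog : Real.log (1 / x ^ (-a)) = a * Real.log x := by
    rw [Real.rpow_neg hx0.le, one_div, inv_inv, Real.log_rpow hx0]
  have hcx : 1 ≤ c * x := by
    rw [div_le_iff₀ hc] at g8
    linarith
  have ht1 : 1 ≤ t := hcx.trans ht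
  refine ⟨⌈10 * M1 * x⌉₊, ?_, ?_, ?_, ?_, ht1, ?_⟩
  · have e1 : (9 / 10 : ℝ) ≤ Real.exp (-(1 / 10)) := by
      have := Real.add_one_le_exp (-(1 / 10) : ℝ)
      linarith
    have e2 : ((9 : ℝ) / 10) ^ ⌈10 * M1 * x⌉₊ ≤ Real.exp (-(1 / 10)) ^ ⌈10 * M1 * x⌉₊ := pow_le_pow_left₀ (by norm_num) e1 _
    refine e2.trans ?_
    rw [← Real.exp_nat_mul, hRpow]
    apply Real.exp_le_exp.mpr
    have e3 := Nat.le_ceil (10 * M1 * x)
    linarith
  · rw [hRpow, ← hx, hxpow]
    apply Real.exp_le_exp.mpr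
    have e1 : Real.log x * a ≤ 1 / 5 * x := by
      have := mul_le_mul_of_nonneg_right g1 ha0.le
      have e : 1 / (5 * a) * x * a = 1 / 5 * x := by field_simp
      linarith
    linarith
  · rw [← hx]
    exact g2
  · rw [← hx, hlog]
    have e1 := mul_le_mul_of_nonneg_left g7 ha0.le
    have e2 : a * (c / a * x) = c * x := by field_simp
    linarith
  · intro N' hN' hN'N
    rw [← hx]
    have hN'1 : (1 : ℝ) ≤ N' := by exact_mod_cast hN'
    have hN'N' : (N' : ℝ) ≤ N := by exact_mod_cast hN'N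
    have ht0 : 0 ≤ t := by linarith
    have hb : C' * (N' * t + 1) ≤ 2 * C' * N * x := by
      have e1 : (N' : ℝ) * t ≤ N * x := mul_le_mul hN'N' ht' ht0 (by linarith)
      have e2 : (1 : ℝ) ≤ N * x := by
        have := mul_le_mul hN1 (show (1 : ℝ) ≤ x by linarith) zero_le_one (by linarith)
        linarith
      have e3 : (N' : ℝ) * t + 1 ≤ 2 * (N * x) := by linarith
      have e4 := mul_le_mul_of_nonneg_left e3 (show (0 : ℝ) ≤ C' by linarith)
      linarith
    have hb1 : 1 ≤ C' * (N' * t + 1) := by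
      have e1 : (1 : ℝ) ≤ N' * t + 1 := by
        have : (0 : ℝ) ≤ N' * t := by positivity
        linarith
      have := mul_le_mul hC' e1 zero_le_one (by linarith)
      linarith
    constructor
    · have hxa : 0 < x ^ a := Real.rpow_pos_of_pos hx0 a
      have e1 : C' * (N' * t + 1) / x ^ (-a) = C' * (N' * t + 1) * x ^ a := by
        rw [Real.rpow_neg hx0.le, div_inv_eq_mul]
      have e2 : x ^ (-a) / (32 * ρ) ≥ x ^ (a + 2) / 32 := by
        have e3 : x ^ (-a) / (32 * ρ) ≥ x ^ (-a) / (32 * x ^ (-(2 * a + 2))) := by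
          apply div_le_div_of_nonneg_left (Real.rpow_pos_of_pos hx0 _).le (by positivity)
          linarith
        have e4 : x ^ (-a) / (32 * x ^ (-(2 * a + 2))) = x ^ (a + 2) / 32 := by
          have e5 : x ^ (a + 2) = x ^ (-a) / x ^ (-(2 * a + 2)) := by
            rw [← Real.rpow_sub hx0]
            congr 1
            ring
          rw [e5, div_div, mul_comm]
        rw [e4] at e3
        exact e3
      have e6 : x ^ (a + 2) = x ^ a * x * x := by
        rw [Real.rpow_add hx0]
        have : x ^ (2 : ℝ) = x * x := by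
          rw [Real.rpow_two]
          ring
        rw [this]
        ring
      have e7 : ((⌈10 * M1 * x⌉₊ : ℕ) : ℝ) ≤ 11 * M1 * x := by
        have e8 := Nat.ceil_lt_add_one (show (0 : ℝ) ≤ 10 * M1 * x by positivity)
        have e9 : (1 : ℝ) ≤ M1 * x := by
          have := mul_le_mul hM1 (show (1 : ℝ) ≤ x by linarith) zero_le_one (by linarith)
          linarith
        linarith
      have e10 : 1 ≤ x ^ a := Real.one_le_rpow (by linarith) ha0.le
      have e11 : (11 * M1 * x : ℝ) ≤ 11 * M1 * x * x ^ a := le_mul_of_one_le_right (by positivity) e10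
      have e12 : C' * (N' * t + 1) * x ^ a ≤ 2 * C' * N * x * x ^ a := mul_le_mul_of_nonneg_right hb hxa.le
      have e13 : (32 * (11 * M1 + 2 * C' * N)) * (x ^ a * x) ≤ x * (x ^ a * x) := mul_le_mul_of_nonneg_right g3 (by positivity)
      rw [e1]
      refine le_trans ?_ e2
      rw [e6]
      linarith
    · rw [hlog, hRpow]
      have e2 : 0 ≤ C' * N' * t / (a * Real.log x) + 3 := by positivity
      have e3 : C' * (N' * t + 1) ≤ x ^ (2 : ℝ) := by
        refine hb.trans ?_
        rw [Real.rpow_two, pow_two]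
        have e4 : 2 * C' * N ≤ x := by
          have : (0 : ℝ) ≤ 2 * C' * N := by positivity
          have : (0 : ℝ) ≤ M1 := by linarith
          linarith
        exact mul_le_mul_of_nonneg_right e4 hx0.le
      refine (Real.rpow_le_rpow (by linarith) e3 e2).trans ?_
      rw [← Real.rpow_mul hx0.le, hxpow]
      apply Real.exp_le_exp.mpr
      have e5 : Real.log x * (2 * (C' * N' * t / (a * Real.log x) + 3)) = 2 * C' * N' * t / a + 6 * Real.log x := by
        field_simp
        ring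
      rw [e5]
      have e6 : 2 * C' * (N' : ℝ) * t / a ≤ x / 32 := by
        rw [div_le_div_iff₀ ha0 (by norm_num)]
        have e7 : (N' : ℝ) * t ≤ N * x := mul_le_mul hN'N' ht' ht0 (by linarith)
        have e8 := mul_le_mul_of_nonneg_left e7 (show (0 : ℝ) ≤ 64 * C' by linarith)
        have e9 : x * a = 64 * C' * (N * x) + x := by
          rw [ha]
          ring
        rw [e9]
        linarith
      linarith

end Pool.Agent.VQ
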