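import Pool.Agent.helper11.VQ.Spec3c
import Pool.Agent.helper55.RPQ.LIP

/-!
# Row vq:SEV (MP_07c750_an): the random series
-/

set_option autoImplicit false

open scoped MatrixGroups ContDiff Topology UpperHalfPlane ComplexConjugate ENNReal
open UpperHalfPlane MeasureTheory Filter Set

namespace Pool.Agent.VQ

open Pool.Agent.RS
open Pool.Agent.RPQ (CEig mean VV IsOp IsMul OProj wrd PJ nst mks MO Net Cl CkB PN upd Eqd)

noncomputable section

theorem SEV_open : IsOpen {w : ℂ | 0 < w.im} := isOpen_lt continuous_const Complex.continuous_im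

/-- the derivatives at a general point (as in row SER of RPQ) -/
theorem SEV_bd {f : ℍ → ℝ} {n : ℕ} {B : ℝ} (h : CkB n f B) {w : ℂ} (hw : 0 < w.im) :
    ‖iteratedFDeriv ℝ n (QU.onC f) w‖ ≤ B * (w.im⁻¹) ^ n := by
  obtain ⟨-, -, -, -, -, -, -, hA, hN, -⟩ := GLC
  set g : SL(2, ℝ) := nM w.re * aM (Real.log w.im) with hg
  have hgz : ∀ z : ℍ, ((g • z : ℍ) : ℂ) = (w.im : ℂ) * z + w.re := by
    intro z
    rw [hg, mul_smul, hN, hA, Real.exp_log hw]
  set H : ℂ → ℝ := QU.onC (fun z : ℍ => f (g • z)) with hH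
  have e1 : (QU.onC f) =ᶠ[𝓝 w] fun w' => H ((w.im⁻¹ : ℝ) • (w' + (-(w.re : ℂ)))) := by
    filter_upwards [SEV_open.mem_nhds hw] with w' hw'
    have h1 : 0 < ((w.im⁻¹ : ℝ) • (w' + (-(w.re : ℂ)))).im := by
      have h2 : ((w.im⁻¹ : ℝ) • (w' + (-(w.re : ℂ)))).im = w.im⁻¹ * w'.im := by simp
      rw [h2]
      have h3 : 0 < w'.im := hw'
      positivity
    show f (ofComplex w') = f (g • ofComplex ((w.im⁻¹ : ℝ) • (w' + (-(w.re : ℂ)))))
    congr 1
    apply UpperHalfPlane.ext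
    rw [hgz, ofComplex_apply_of_im_pos hw', ofComplex_apply_of_im_pos h1]
    show w' = (w.im : ℂ) * ((w.im⁻¹ : ℝ) • (w' + (-(w.re : ℂ)))) + w.re
    have h4 : (w.im : ℂ) ≠ 0 := by exact_mod_cast hw.ne'
    rw [Complex.real_smul]
    push_cast
    field_simp
    ring
  have e2 := e1.iteratedFDeriv ℝ n
  rw [e2.eq_of_nhds]
  have hy : (w.im⁻¹ : ℝ) ≠ 0 := inv_ne_zero hw.ne'
  have e3 : iteratedFDeriv ℝ n (fun w' => H ((w.im⁻¹ : ℝ) • (w' + (-(w.re : ℂ))))) w =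
      iteratedFDeriv ℝ n (fun w' => H ((w.im⁻¹ : ℝ) • w')) (w + (-(w.re : ℂ))) :=
    iteratedFDeriv_comp_add_right (f := fun w' => H ((w.im⁻¹ : ℝ) • w')) n (-(w.re : ℂ)) w
  rw [e3]
  set L : ℂ ≃L[ℝ] ℂ := ContinuousLinearEquiv.smulLeft (Units.mk0 (w.im⁻¹ : ℝ) hy) with hL
  have hLa : ∀ u : ℂ, L u = (w.im⁻¹ : ℝ) • u := fun u => rfl
  have e4 : (fun w' => H ((w.im⁻¹ : ℝ) • w')) = H ∘ L := by
    ext u
    rw [Function.comp_apply, hLa]
  have e5 : iteratedFDeriv ℝ n (H ∘ L) (w + (-(w.re : ℂ))) =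
      (iteratedFDeriv ℝ n H (L (w + (-(w.re : ℂ))))).compContinuousLinearMap fun _ => (L : ℂ →L[ℝ] ℂ) := by
    have h5 := L.iteratedFDerivWithin_comp_right H (s := univ) uniqueDiffOn_univ (x := w + (-(w.re : ℂ))) (mem_univ _) n
    rw [preimage_univ, iteratedFDerivWithin_univ, iteratedFDerivWithin_univ] at h5
    exact h5
  have e6 : L (w + (-(w.re : ℂ))) = (I : ℍ) := by
    rw [hLa, Complex.real_smul]
    have h4 : (w.im : ℂ) ≠ 0 := by exact_mod_cast hw.ne'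
    have h5 : w + (-(w.re : ℂ)) = (w.im : ℂ) * Complex.I := by
      apply Complex.ext <;> simp
    rw [h5, ← mul_assoc]
    push_cast
    rw [inv_mul_cancel₀ h4, one_mul]
  rw [e4, e5, e6]
  refine (ContinuousMultilinearMap.norm_compContinuousLinearMap_le _ _).trans ?_
  have e7 : ‖(L : ℂ →L[ℝ] ℂ)‖ ≤ w.im⁻¹ := by
    apply ContinuousLinearMap.opNorm_le_bound _ (by positivity)
    intro u
    show ‖(w.im⁻¹ : ℝ) • u‖ ≤ _
    rw [norm_smul, Real.norm_of_nonneg (by positivity)]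
  have e8 : ∏ _i : Fin n, ‖(L : ℂ →L[ℝ] ℂ)‖ ≤ (w.im⁻¹) ^ n := by
    rw [Finset.prod_const, Finset.card_univ, Fintype.card_fin]
    exact pow_le_pow_left₀ (norm_nonneg _) e7 n
  have e9 := h g
  exact mul_le_mul e9 e8 (Finset.prod_nonneg fun _ _ => norm_nonneg _) ((norm_nonneg _).trans e9)

/-- derivatives of a series, term by term -/
theorem SEV_term {v : ℕ → ℍ → ℝ} (hv : ∀ k, QU.CD ∞ (v k)) {c : ℕ → ℕ → ℝ} (hc : ∀ n, Summable (c n))
    (hcb : ∀ n k, CkB n (v k) (c n k)) {w₀ : ℂ} (hw₀ : 0 < w₀.im) (n : ℕ) :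
    iteratedFDeriv ℝ n (QU.onC fun z => ∑' k, v k z) w₀ = ∑' k, iteratedFDeriv ℝ n (QU.onC (v k)) w₀ := by
  let b : ContDiffBump w₀ := ⟨w₀.im / 4, w₀.im / 2, by positivity, by linarith⟩
  have hball : ∀ w ∈ tsupport (b : ℂ → ℝ), w₀.im / 2 ≤ w.im := by
    intro w hw
    rw [b.tsupport_eq, Metric.mem_closedBall, Complex.dist_eq] at hw
    have h1 : |(w - w₀).im| ≤ w₀.im / 2 := (Complex.abs_im_le_norm _).trans hw
    rw [Complex.sub_im] at h1
    have h2 := (abs_le.1 h1).1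
    linarith
  have hbs : ContDiff ℝ ∞ (b : ℂ → ℝ) := b.contDiff
  have hFs : ∀ k, ∀ w : ℂ, 0 < w.im → ContDiffAt ℝ ∞ (QU.onC (v k)) w := fun k w hw =>
    (hv k).contDiffAt (SEV_open.mem_nhds hw)
  have hf : ∀ k, ContDiff ℝ ∞ (fun w : ℂ => b w * QU.onC (v k) w) := by
    intro k
    rw [contDiff_iff_contDiffAt]
    intro w
    by_cases h1 : w ∈ tsupport (b : ℂ → ℝ)
    · have h2 := hball w h1
      exact hbs.contDiffAt.mul (hFs k w (by linarith))
    · have h3 : (b : ℂ → ℝ) =ᶠ[𝓝 w] 0 := notMem_tsupport_iff_eventuallyEq.1 h1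
      have h4 : (fun w : ℂ => b w * QU.onC (v k) w) =ᶠ[𝓝 w] fun _ => 0 := by
        filter_upwards [h3] with u hu
        rw [hu]
        simp
      exact contDiffAt_const.congr_of_eventuallyEq h4
  have hM : ∀ i : ℕ, ∃ M : ℝ, 0 ≤ M ∧ ∀ w, ‖iteratedFDeriv ℝ i (b : ℂ → ℝ) w‖ ≤ M := by
    intro i
    have h1 : HasCompactSupport (iteratedFDeriv ℝ i (b : ℂ → ℝ)) := b.hasCompactSupport.iteratedFDeriv i
    have h2 : Continuous (iteratedFDeriv ℝ i (b : ℂ → ℝ)) :=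
      hbs.continuous_iteratedFDeriv (by exact_mod_cast le_top)
    obtain ⟨M, hM⟩ := h1.exists_bound_of_continuous h2
    exact ⟨M, (norm_nonneg _).trans (hM 0), hM⟩
  choose M hM0 hM using hM
  have hsum := iteratedFDeriv_tsum_apply (𝕜 := ℝ) (N := ⊤) (v := fun n k => ∑ i ∈ Finset.range (n + 1), (n.choose i : ℝ) * M i *
      (c (n - i) k * ((w₀.im / 2)⁻¹) ^ (n - i))) hf
    (by
      intro n _
      apply summable_sum
      intro i _
      exact ((hc (n - i)).mul_right _).mul_left _)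
    (by
      intro n k w _
      by_cases hw : w ∈ tsupport (b : ℂ → ℝ)
      · have h2 := hball w hw
        have hwp : 0 < w.im := by linarith
        have h3 := norm_iteratedFDerivWithin_mul_le (𝕜 := ℝ) (A := ℝ) (N := ∞) (s := {w : ℂ | 0 < w.im})
          (f := fun w : ℂ => (b w : ℝ)) (g := QU.onC (v k))
          hbs.contDiffOn (hv k) SEV_open.uniqueDiffOn (x := w) hwp (n := n) (by exact_mod_cast le_top)
        simp only [iteratedFDerivWithin_of_isOpen _ SEV_open (show w ∈ {w : ℂ | 0 < w.im} from hwp)] at h3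
        refine h3.trans ?_
        apply Finset.sum_le_sum
        intro i _
        have h4 := SEV_bd (hcb (n - i) k) hwp
        have hc0 : 0 ≤ c (n - i) k := (norm_nonneg _).trans (hcb (n - i) k 1)
        have h5 : c (n - i) k * (w.im⁻¹) ^ (n - i) ≤ c (n - i) k * ((w₀.im / 2)⁻¹) ^ (n - i) := by
          apply mul_le_mul_of_nonneg_left _ hc0
          apply pow_le_pow_left₀ (by positivity)
          exact inv_anti₀ (by positivity) h2
        have h6 := h4.trans h5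
        have h7 := hM i w
        have h8 : (n.choose i : ℝ) * ‖iteratedFDeriv ℝ i (b : ℂ → ℝ) w‖ ≤ (n.choose i : ℝ) * M i :=
          mul_le_mul_of_nonneg_left h7 (Nat.cast_nonneg _)
        exact mul_le_mul h8 h6 (norm_nonneg _) (mul_nonneg (Nat.cast_nonneg _) (hM0 i))
      · have h2 : (fun w : ℂ => b w * QU.onC (v k) w) =ᶠ[𝓝 w] fun _ => 0 := by
          have h3 : (b : ℂ → ℝ) =ᶠ[𝓝 w] 0 := notMem_tsupport_iff_eventuallyEq.1 hw
          filter_upwards [h3] with u hu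
          rw [hu]
          simp
        rw [(h2.iteratedFDeriv ℝ n).eq_of_nhds]
        have h4 : ‖iteratedFDeriv ℝ n (fun _ : ℂ => (0 : ℝ)) w‖ = 0 := by
          rw [iteratedFDeriv_fun_zero]
          simp
        rw [h4]
        apply Finset.sum_nonneg
        intro i _
        have hc0 : 0 ≤ c (n - i) k := (norm_nonneg _).trans (hcb (n - i) k 1)
        have := hM0 i
        positivity)
    (k := n) (by exact le_top) w₀
  have heq : (QU.onC fun z => ∑' k, v k z) =ᶠ[𝓝 w₀] fun w : ℂ => ∑' k, b w * QU.onC (v k) w := by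
    filter_upwards [b.eventuallyEq_one] with w hw
    show ∑' k, v k (ofComplex w) = ∑' k, b w * v k (ofComplex w)
    rw [hw]
    simp
  have heqk : ∀ k, (fun w : ℂ => b w * QU.onC (v k) w) =ᶠ[𝓝 w₀] QU.onC (v k) := by
    intro k
    filter_upwards [b.eventuallyEq_one] with w hw
    rw [hw]
    simp
  rw [(heq.iteratedFDeriv ℝ n).eq_of_nhds, hsum]
  exact tsum_congr fun k => ((heqk k).iteratedFDeriv ℝ n).eq_of_nhds

theorem SEV_smul {f : ℍ → ℝ} {n : ℕ} {B : ℝ} (h : CkB n f B) (g : SL(2, ℝ)) : CkB n (fun z => f (g • z)) B := by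
  intro g'
  have h1 := h (g * g')
  simp only [mul_smul] at h1
  exact h1

theorem SEV_mono {f : ℍ → ℝ} {n : ℕ} {A B : ℝ} (h : CkB n f A) (hAB : A ≤ B) : CkB n f B :=
  fun g => (h g).trans hAB

theorem SEV_ser {v : ℕ → ℍ → ℝ} (hv : ∀ k, QU.CD ∞ (v k)) {c : ℕ → ℕ → ℝ} (hc : ∀ n, Summable (c n))
    (hcb : ∀ n k, CkB n (v k) (c n k)) (n : ℕ) : CkB n (fun z => ∑' k, v k z) (∑' k, c n k) := by
  intro g
  have h1 := SEV_term (v := fun k z => v k (g • z)) (fun k => Pool.Agent.RPQ.LIP_cd (v k) g ∞ (hv k)) hc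
    (fun n k => SEV_smul (hcb n k) g) (w₀ := ((I : ℍ) : ℂ)) I.im_pos n
  rw [h1]
  exact tsum_of_norm_bounded (hc n).hasSum fun k => hcb n k g

theorem SEV_at {f : ℍ → ℝ} (hf : QU.CD ∞ f) (g : SL(2, ℝ)) (n : ℕ) :
    ContDiffAt ℝ n (QU.onC fun z : ℍ => f (g • z)) ((I : ℍ) : ℂ) :=
  ((Pool.Agent.RPQ.LIP_cd f g ∞ hf).contDiffAt (SEV_open.mem_nhds I.im_pos)).of_le (by exact_mod_cast le_top)

theorem SEV_add {f h : ℍ → ℝ} (hf : QU.CD ∞ f) (hh : QU.CD ∞ h) {n : ℕ} {A B : ℝ} (h1 : CkB n f A) (h2 : CkB n h B) :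
    CkB n (fun z => f z + h z) (A + B) := by
  intro g
  have e : (QU.onC fun z : ℍ => f (g • z) + h (g • z)) =
      (QU.onC fun z : ℍ => f (g • z)) + (QU.onC fun z : ℍ => h (g • z)) := rfl
  rw [e, iteratedFDeriv_add_apply (SEV_at hf g n) (SEV_at hh g n)]
  exact (norm_add_le _ _).trans (add_le_add (h1 g) (h2 g))

theorem SEV_cmul {f : ℍ → ℝ} (hf : QU.CD ∞ f) {n : ℕ} {A : ℝ} (c : ℝ) (h1 : CkB n f A) :
    CkB n (fun z => c * f z) (|c| * A) := by
  intro g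
  have e : (QU.onC fun z : ℍ => c * f (g • z)) = c • (QU.onC fun z : ℍ => f (g • z)) := rfl
  rw [e, iteratedFDeriv_const_smul_apply (SEV_at hf g n), norm_smul, Real.norm_eq_abs]
  exact mul_le_mul_of_nonneg_left (h1 g) (abs_nonneg _)

theorem SEV_CDadd {f h : ℍ → ℝ} (hf : QU.CD ∞ f) (hh : QU.CD ∞ h) : QU.CD ∞ (fun z => f z + h z) :=
  ContDiffOn.add hf hh

theorem SEV_CDmul {f : ℍ → ℝ} (hf : QU.CD ∞ f) (c : ℝ) : QU.CD ∞ (fun z => c * f z) :=
  ContDiffOn.mul contDiffOn_const hf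

/-! ### Smooth invariant functions have finite seminorms -/

/-- the Moebius map with the coefficients as variables -/
def SEV_M (q : ((ℝ × ℝ) × (ℝ × ℝ)) × ℂ) : ℂ := ((q.1.1.1 : ℂ) * q.2 + (q.1.1.2 : ℂ)) / ((q.1.2.1 : ℂ) * q.2 + (q.1.2.2 : ℂ))

/-- the domain where the denominator does not vanish -/
def SEV_S : Set (((ℝ × ℝ) × (ℝ × ℝ)) × ℂ) := {q | ((q.1.2.1 : ℂ) * q.2 + (q.1.2.2 : ℂ)) ≠ 0}

theorem SEV_lin (f : ((ℝ × ℝ) × (ℝ × ℝ)) × ℂ → ℝ) (hf : ContDiff ℝ ∞ f) : ContDiff ℝ ∞ fun q => ((f q : ℝ) : ℂ) :=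
  Complex.ofRealCLM.contDiff.comp hf

theorem SEV_num : ContDiff ℝ ∞ fun q : ((ℝ × ℝ) × (ℝ × ℝ)) × ℂ => ((q.1.1.1 : ℂ) * q.2 + (q.1.1.2 : ℂ)) := by
  refine ContDiff.add (ContDiff.mul (SEV_lin (fun q => q.1.1.1) ?_) contDiff_snd) (SEV_lin (fun q => q.1.1.2) ?_)
  · exact contDiff_fst.comp (contDiff_fst.comp contDiff_fst)
  · exact contDiff_snd.comp (contDiff_fst.comp contDiff_fst)

theorem SEV_den : ContDiff ℝ ∞ fun q : ((ℝ × ℝ) × (ℝ × ℝ)) × ℂ => ((q.1.2.1 : ℂ) * q.2 + (q.1.2.2 : ℂ)) := by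
  refine ContDiff.add (ContDiff.mul (SEV_lin (fun q => q.1.2.1) ?_) contDiff_snd) (SEV_lin (fun q => q.1.2.2) ?_)
  · exact contDiff_fst.comp (contDiff_snd.comp contDiff_fst)
  · exact contDiff_snd.comp (contDiff_snd.comp contDiff_fst)

theorem SEV_So : IsOpen SEV_S := isOpen_ne_fun SEV_den.continuous continuous_const

theorem SEV_Ms : ContDiffOn ℝ ∞ SEV_M SEV_S := by
  have h : ContDiffOn ℝ ∞ (fun q : ((ℝ × ℝ) × (ℝ × ℝ)) × ℂ => ((q.1.1.1 : ℂ) * q.2 + (q.1.1.2 : ℂ)) *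
      ((q.1.2.1 : ℂ) * q.2 + (q.1.2.2 : ℂ))⁻¹) SEV_S :=
    SEV_num.contDiffOn.mul (SEV_den.contDiffOn.inv fun q hq => hq)
  exact h.congr fun q _ => div_eq_mul_inv _ _

theorem SEV_bdd {Γ : Subgroup SL(2, ℝ)} (hΓ : QU.SurfaceGroup Γ) {f : ℍ → ℝ} (hf : QU.CD ∞ f)
    (hi : ∀ (γ : Γ) (z : ℍ), f (γ • z) = f z) (n : ℕ) : ∃ B : ℝ, CkB n f B := by
  obtain ⟨K, hK, hcov⟩ := hΓ.cocompact
  obtain ⟨-, -, hcpt, -⟩ := GLC
  have hC := hcpt K hK
  -- the function of the coefficients and the point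
  let U : Set (((ℝ × ℝ) × (ℝ × ℝ)) × ℂ) := SEV_S ∩ SEV_M ⁻¹' {w : ℂ | 0 < w.im}
  have hU : IsOpen U := SEV_Ms.continuousOn.isOpen_inter_preimage SEV_So SEV_open
  let F : ((ℝ × ℝ) × (ℝ × ℝ)) × ℂ → ℝ := fun q => QU.onC f (SEV_M q)
  have hf' : ContDiffOn ℝ ∞ (QU.onC f) {w : ℂ | 0 < w.im} := hf
  have hF : ContDiffOn ℝ ∞ F U := hf'.comp (SEV_Ms.mono inter_subset_left) fun q hq => hq.2
  let m : SL(2, ℝ) → (ℝ × ℝ) × (ℝ × ℝ) := fun g => ((g 0 0, g 0 1), (g 1 0, g 1 1))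
  have hent : ∀ i j : Fin 2, Continuous fun g : SL(2, ℝ) => g i j := by
    intro i j
    have h1 : Continuous fun g : SL(2, ℝ) => (g : Matrix (Fin 2) (Fin 2) ℝ) :=
      (Matrix.SpecialLinearGroup.isClosedEmbedding_val (n := Fin 2) (R := ℝ)).continuous
    exact h1.matrix_elem i j
  have hm : Continuous m := ((hent 0 0).prodMk (hent 0 1)).prodMk ((hent 1 0).prodMk (hent 1 1))
  have hMm : ∀ (g : SL(2, ℝ)) (w : ℂ), SEV_M (m g, w) = SEQ_m g w := fun g w => rfl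
  have hmU : ∀ (g : SL(2, ℝ)) (w : ℂ), 0 < w.im → (m g, w) ∈ U := by
    intro g w hw
    refine ⟨SEQ_den g w hw, ?_⟩
    show 0 < (SEV_M (m g, w)).im
    rw [hMm]
    exact SEQ_pos g w hw
  have hcont : Continuous fun g : SL(2, ℝ) => iteratedFDerivWithin ℝ n F U (m g, ((I : ℍ) : ℂ)) := by
    have h1 : ContinuousOn (iteratedFDerivWithin ℝ n F U) U :=
      hF.continuousOn_iteratedFDerivWithin (by exact_mod_cast le_top) hU.uniqueDiffOn
    exact h1.comp_continuous (hm.prodMk continuous_const) fun g => hmU g _ I.im_pos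
  obtain ⟨B, hB⟩ := hC.bddAbove_image (f := fun g : SL(2, ℝ) => ‖iteratedFDerivWithin ℝ n F U (m g, ((I : ℍ) : ℂ))‖)
    hcont.norm.continuousOn
  refine ⟨B, fun g => ?_⟩
  obtain ⟨γ, hγ⟩ := hcov (g • I)
  have hg : (γ : SL(2, ℝ)) * g ∈ {g : SL(2, ℝ) | g • I ∈ K} := by
    show ((γ : SL(2, ℝ)) * g) • I ∈ K
    rw [mul_smul]
    exact hγ
  have hB1 : ‖iteratedFDerivWithin ℝ n F U (m ((γ : SL(2, ℝ)) * g), ((I : ℍ) : ℂ))‖ ≤ B :=
    hB (mem_image_of_mem _ hg)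
  have e0 : (fun z : ℍ => f (g • z)) = fun z : ℍ => f (((γ : SL(2, ℝ)) * g) • z) := by
    ext z
    rw [mul_smul]
    exact (hi γ _).symm
  rw [e0]
  generalize (γ : SL(2, ℝ)) * g = g' at hB1
  -- the slice
  let L : ℂ →L[ℝ] ((ℝ × ℝ) × (ℝ × ℝ)) × ℂ := ContinuousLinearMap.inr ℝ ((ℝ × ℝ) × (ℝ × ℝ)) ℂ
  have hL : ∀ w : ℂ, L w + (m g', 0) = (m g', w) := by
    intro w
    show ((0 : (ℝ × ℝ) × (ℝ × ℝ)), w) + (m g', (0 : ℂ)) = (m g', w)
    rw [Prod.mk_add_mk, zero_add, add_zero]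
  let F1 : ((ℝ × ℝ) × (ℝ × ℝ)) × ℂ → ℝ := fun q => F (q + (m g', 0))
  let U1 : Set (((ℝ × ℝ) × (ℝ × ℝ)) × ℂ) := (fun q => q + (m g', (0 : ℂ))) ⁻¹' U
  have hU1 : IsOpen U1 := hU.preimage (continuous_add_const _)
  have hF1 : ContDiffOn ℝ ∞ F1 U1 :=
    hF.comp (contDiff_id.add contDiff_const).contDiffOn fun q hq => hq
  have hLI : L ((I : ℍ) : ℂ) ∈ U1 := by
    show L ((I : ℍ) : ℂ) + (m g', 0) ∈ U
    rw [hL]
    exact hmU g' _ I.im_pos
  have e1 : (QU.onC fun z : ℍ => f (g' • z)) =ᶠ[𝓝 ((I : ℍ) : ℂ)] F1 ∘ L := by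
    filter_upwards [SEV_open.mem_nhds I.im_pos] with w hw
    show QU.onC (fun z : ℍ => f (g' • z)) w = F (L w + (m g', 0))
    rw [hL, Pool.Agent.RPQ.LIP_onC f g' w hw]
    rfl
  rw [(e1.iteratedFDeriv ℝ n).eq_of_nhds]
  have hpre : IsOpen (L ⁻¹' U1) := hU1.preimage L.continuous
  have e2 := L.iteratedFDerivWithin_comp_right hF1 hU1.uniqueDiffOn hpre.uniqueDiffOn hLI (i := n)
    (by exact_mod_cast le_top)
  rw [iteratedFDerivWithin_of_isOpen _ hpre hLI, iteratedFDerivWithin_of_isOpen _ hU1 hLI] at e2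
  rw [e2]
  have e3 : iteratedFDeriv ℝ n F1 (L ((I : ℍ) : ℂ)) = iteratedFDeriv ℝ n F (m g', ((I : ℍ) : ℂ)) := by
    have := iteratedFDeriv_comp_add_right (𝕜 := ℝ) (f := F) n (m g', (0 : ℂ)) (L ((I : ℍ) : ℂ))
    rw [hL] at this
    exact this
  rw [e3]
  rw [iteratedFDerivWithin_of_isOpen _ hU (hmU g' _ I.im_pos)] at hB1
  refine (ContinuousMultilinearMap.norm_compContinuousLinearMap_le _ _).trans ?_
  have e7 : ‖L‖ ≤ 1 := by
    apply ContinuousLinearMap.opNorm_le_bound _ zero_le_one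
    intro u
    show ‖((0 : (ℝ × ℝ) × (ℝ × ℝ)), u)‖ ≤ 1 * ‖u‖
    rw [Prod.norm_mk, norm_zero, one_mul]
    exact max_le (norm_nonneg _) le_rfl
  have e8 : ∏ _i : Fin n, ‖L‖ ≤ 1 := by
    rw [Finset.prod_const, Finset.card_univ, Fintype.card_fin]
    exact pow_le_one₀ (norm_nonneg _) e7
  calc _ ≤ ‖iteratedFDeriv ℝ n F (m g', ((I : ℍ) : ℂ))‖ * 1 := mul_le_mul_of_nonneg_left e8 (norm_nonneg _)
    _ ≤ B := by rw [mul_one]; exact hB1

/-! ### The series with bounded coefficients -/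

section main

variable {Γ : Subgroup SL(2, ℝ)} {κ : ℝ → ℝ} {C0 η : ℝ} {k0 : ℕ} {J : ℕ → ℕ} {p : (k : ℕ) → Fin (J k) → ℍ}
  {χ : (k : ℕ) → Fin (J k) → ℍ → ℝ}

theorem SEV_chi (hF : FamV Γ κ C0 η k0 J p χ) (k : ℕ) (j : Fin (J k)) : QU.CD ∞ (χ k j) ∧ QU.Inv Γ (χ k j) := by
  rcases Nat.lt_or_ge k k0 with h | h
  · have h1 := j.2
    have h2 := hF.zero k h
    omega
  · exact ⟨(hF.net k h).smooth j, (hF.net k h).inv j⟩

theorem SEV_lv (hF : FamV Γ κ C0 η k0 J p χ) (ζ : ℕ × ℕ → ℝ) (k : ℕ) : QU.CD ∞ (lv χ ζ k) ∧ QU.Inv Γ (lv χ ζ k) := by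
  refine ⟨?_, ?_, ?_⟩
  · have h1 : ContDiffOn ℝ ∞ (fun w : ℂ => ak k * ∑ j : Fin (J k), ζ (k, (j : ℕ)) * QU.onC (χ k j) w)
        {w : ℂ | 0 < w.im} :=
      contDiffOn_const.mul (ContDiffOn.sum fun j _ => contDiffOn_const.mul (SEV_chi hF k j).1)
    exact h1
  · exact continuous_const.mul (continuous_finsetSum _ fun j _ => continuous_const.mul (SEV_chi hF k j).2.1)
  · intro γ z
    show ak k * ∑ j : Fin (J k), ζ (k, (j : ℕ)) * χ k j (γ • z) = ak k * ∑ j : Fin (J k), ζ (k, (j : ℕ)) * χ k j z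
    congr 1
    exact Finset.sum_congr rfl fun j _ => by rw [(SEV_chi hF k j).2.2 γ z]

theorem SEV_W (hSER : Pool.Agent.RPQ.SER_stmt) (hF : FamV Γ κ C0 η k0 J p χ) {c : ℕ → ℕ → ℝ}
    (hc : ∀ n, Summable (c n)) (hc0 : ∀ n k, 0 ≤ c n k)
    (hcb : ∀ (n k : ℕ) (ζ : ℕ × ℕ → ℝ), (∀ q, |ζ q| ≤ 1) → CkB n (lv χ ζ k) (c n k))
    (a : ℕ → ℝ) (ha : ∀ k, |a k| ≤ 1) (θ : ℕ → ℕ × ℕ → ℝ) (hθ : ∀ k q, |θ k q| ≤ 1) :
    (∀ z, Summable fun k => a k * lv χ (θ k) k z) ∧ QU.CD ∞ (fun z => ∑' k, a k * lv χ (θ k) k z) ∧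
    QU.Inv Γ (fun z => ∑' k, a k * lv χ (θ k) k z) ∧ (∀ n, Summable fun k => |a k| * c n k) ∧
    ∀ n, CkB n (fun z => ∑' k, a k * lv χ (θ k) k z) (∑' k, |a k| * c n k) := by
  have h1 : ∀ k, QU.CD ∞ (fun z => a k * lv χ (θ k) k z) := fun k => SEV_CDmul (SEV_lv hF (θ k) k).1 (a k)
  have h2 : ∀ k, QU.Inv Γ (fun z => a k * lv χ (θ k) k z) := fun k =>
    ⟨continuous_const.mul (SEV_lv hF (θ k) k).2.1, fun γ z => congrArg (fun t => a k * t) ((SEV_lv hF (θ k) k).2.2 γ z)⟩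
  have h3 : ∀ n, Summable fun k => |a k| * c n k := by
    intro n
    refine Summable.of_nonneg_of_le (fun k => mul_nonneg (abs_nonneg _) (hc0 n k)) (fun k => ?_) (hc n)
    exact mul_le_of_le_one_left (hc0 n k) (ha k)
  have h4 : ∀ n k, CkB n (fun z => a k * lv χ (θ k) k z) (|a k| * c n k) := fun n k =>
    SEV_cmul (SEV_lv hF (θ k) k).1 (a k) (hcb n k (θ k) (hθ k))
  obtain ⟨s1, s2, s3⟩ := hSER Γ (fun k z => a k * lv χ (θ k) k z) (fun k => ⟨h1 k, h2 k⟩)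
    (fun n => ⟨fun k => |a k| * c n k, h3 n, h4 n⟩)
  exact ⟨s1, s2, s3, h3, fun n => SEV_ser (v := fun k z => a k * lv χ (θ k) k z) (c := fun n k => |a k| * c n k) h1 h3 h4 n⟩

end main

theorem SEV_proof (hSER : RPQ.SER_stmt) (_hLIP : RPQ.LIP_stmt) : SEV_stmt := by
  intro Γ κ C0 η k0 J p χ f0 hΓ hF hf0 hI0 hη0
  obtain ⟨c, C', hc, hc0, hcη, hcb, -⟩ := hF.sum
  have hW := fun a ha θ hθ => SEV_W hSER hF hc hc0 hcb a ha θ hθ
  have hle : ∀ (a : ℕ → ℝ), (∀ k, |a k| ≤ 1) → ∀ n, ∑' k, |a k| * c n k ≤ ∑' k, c n k := by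
    intro a ha n
    refine Summable.tsum_le_tsum (fun k => mul_le_of_le_one_left (hc0 n k) (ha k)) ?_ (hc n)
    exact Summable.of_nonneg_of_le (fun k => mul_nonneg (abs_nonneg _) (hc0 n k))
      (fun k => mul_le_of_le_one_left (hc0 n k) (ha k)) (hc n)
  refine ⟨?_, ?_⟩
  · choose B0 hB0 using fun n => SEV_bdd hΓ hf0 hI0.2 n
    refine ⟨fun n => B0 n + ∑' k, c n k, fun ζ hζ => ?_⟩
    have key : ∀ (a : ℕ → ℝ) (G : ℍ → ℝ), (∀ k, |a k| ≤ 1) → (∀ z, G z = f0 z + ∑' k, a k * lv χ ζ k z) →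
        QU.CD ∞ G ∧ QU.Inv Γ G ∧ (∀ n ≤ 3, CkB n G (2 * η)) ∧ ∀ n, CkB n G (B0 n + ∑' k, c n k) := by
      intro a G ha hG
      obtain ⟨-, w2, w3, -, w5⟩ := hW a ha (fun _ => ζ) (fun _ => hζ)
      have e : G = fun z => f0 z + ∑' k, a k * lv χ ζ k z := funext hG
      rw [e]
      refine ⟨SEV_CDadd hf0 w2, ⟨hI0.1.add w3.1, fun γ z => ?_⟩, fun n hn => ?_, fun n => ?_⟩
      · show f0 (γ • z) + ∑' k, a k * lv χ ζ k (γ • z) = f0 z + ∑' k, a k * lv χ ζ k z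
        rw [hI0.2 γ z]
        congr 1
        exact w3.2 γ z
      · refine SEV_mono (SEV_add hf0 w2 (hη0 n hn) (w5 n)) ?_
        have := (hle a ha n).trans (hcη n hn)
        linarith
      · refine SEV_mono (SEV_add hf0 w2 (hB0 n) (w5 n)) ?_
        have := hle a ha n
        linarith
    refine ⟨key (fun _ => 1) _ (fun _ => by simp) (fun z => ?_), fun K => ?_⟩
    · simp only [one_mul]
      rfl
    · refine key (fun k => if k < K then 1 else 0) _ (fun k => ?_) (fun z => ?_)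
      · split_ifs <;> simp
      · unfold bs
        congr 1
        rw [tsum_eq_sum (s := Finset.range K)]
        · refine Finset.sum_congr rfl fun k hk => ?_
          rw [if_pos (Finset.mem_range.1 hk), one_mul]
        · intro k hk
          rw [if_neg (fun h => hk (Finset.mem_range.2 h)), zero_mul]
  · intro s hs
    have htail : ∀ n, ∀ᶠ K : ℕ in atTop, (1 / 2 ^ K : ℝ) * (∑' k, c n k) + ∑' k, c n (k + K) < s := by
      intro n
      have t1 : Tendsto (fun K : ℕ => ∑' k, c n (k + K)) atTop (𝓝 0) := tendsto_sum_nat_add (c n)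
      have t2 : Tendsto (fun K : ℕ => (1 / 2 ^ K : ℝ)) atTop (𝓝 0) := by
        have := tendsto_pow_atTop_nhds_zero_of_lt_one (r := (1 / 2 : ℝ)) (by norm_num) (by norm_num)
        simpa [one_div, inv_pow] using this
      have t3 := (t2.mul_const (∑' k, c n k)).add t1
      rw [zero_mul, zero_add] at t3
      exact t3.eventually (gt_mem_nhds hs)
    obtain ⟨K0, hK0⟩ := Filter.eventually_atTop.1 ((htail 0).and (htail 1))
    refine ⟨K0, fun K ζ v m hK hζ hm hmK hv n hn => ?_⟩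
    have hm1 : m ≤ 1 := by
      refine hmK.trans ?_
      rw [div_le_one (by positivity)]
      exact one_le_pow₀ (by norm_num)
    let a : ℕ → ℝ := fun k => if k < K then -m else 1
    let θ : ℕ → ℕ × ℕ → ℝ := fun k q => if k < K then (if q.1 = k ∧ q.2 < J k then (v q - ζ q) / m else 0) else ζ q
    have ha : ∀ k, |a k| ≤ 1 := by
      intro k
      show |if k < K then -m else 1| ≤ 1
      split_ifs
      · rw [abs_neg, abs_of_pos hm]
        exact hm1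
      · simp
    have hθ : ∀ k q, |θ k q| ≤ 1 := by
      intro k q
      show |if k < K then (if q.1 = k ∧ q.2 < J k then (v q - ζ q) / m else 0) else ζ q| ≤ 1
      split_ifs with h1 h2
      · rw [abs_div, abs_of_pos hm, div_le_one hm]
        refine hv q (by omega) (by omega) ?_
        rw [h2.1]
        exact h2.2
      · simp
      · exact hζ q
    obtain ⟨w1, w2, w3, w4, w5⟩ := hW a ha θ hθ
    have e : (fun z => (f0 z + rV χ ζ z) - bs χ f0 K v z) = fun z => ∑' k, a k * lv χ (θ k) k z := by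
      ext z
      obtain ⟨u1, -⟩ := hW (fun _ => 1) (fun _ => by simp) (fun _ => ζ) (fun _ => hζ)
      have u2 : Summable fun k => lv χ ζ k z := by
        have := u1 z
        simpa only [one_mul] using this
      have u3 : ∑ k ∈ Finset.range K, lv χ v k z = ∑' k, if k < K then lv χ v k z else 0 := by
        rw [tsum_eq_sum (s := Finset.range K)]
        · exact Finset.sum_congr rfl fun k hk => by rw [if_pos (Finset.mem_range.1 hk)]
        · intro k hk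
          rw [if_neg (fun h => hk (Finset.mem_range.2 h))]
      have u4 : Summable fun k => if k < K then lv χ v k z else 0 := by
        apply summable_of_ne_finset_zero (s := Finset.range K)
        intro k hk
        rw [if_neg (fun h => hk (Finset.mem_range.2 h))]
      unfold bs rV
      rw [u3]
      have u5 : f0 z + ∑' k, lv χ ζ k z - (f0 z + ∑' k, if k < K then lv χ v k z else 0) =
          ∑' k, lv χ ζ k z - ∑' k, if k < K then lv χ v k z else 0 := by ring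
      rw [u5, ← u2.tsum_sub u4]
      refine tsum_congr fun k => ?_
      by_cases hk : k < K
      · have e1 : a k = -m := if_pos hk
        rw [if_pos hk, e1]
        show ak k * ∑ j : Fin (J k), ζ (k, (j : ℕ)) * χ k j z - ak k * ∑ j : Fin (J k), v (k, (j : ℕ)) * χ k j z =
          -m * (ak k * ∑ j : Fin (J k), θ k (k, (j : ℕ)) * χ k j z)
        have e2 : ∑ j : Fin (J k), θ k (k, (j : ℕ)) * χ k j z =
            (∑ j : Fin (J k), v (k, (j : ℕ)) * χ k j z - ∑ j : Fin (J k), ζ (k, (j : ℕ)) * χ k j z) / m := by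
          rw [← Finset.sum_sub_distrib, Finset.sum_div]
          refine Finset.sum_congr rfl fun j _ => ?_
          have e3 : θ k (k, (j : ℕ)) = (v (k, (j : ℕ)) - ζ (k, (j : ℕ))) / m := by
            show (if k < K then (if k = k ∧ (j : ℕ) < J k then (v (k, (j : ℕ)) - ζ (k, (j : ℕ))) / m else 0)
              else ζ (k, (j : ℕ))) = _
            rw [if_pos hk, if_pos ⟨rfl, j.2⟩]
          rw [e3]
          ring
        rw [e2]
        field_simp
        ring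
      · have e1 : a k = 1 := if_neg hk
        have e2 : θ k = ζ := by
          funext q
          exact if_neg hk
        rw [if_neg hk, e1, e2, one_mul, sub_zero]
    rw [e]
    refine SEV_mono (w5 n) ?_
    have e1 : ∑' k, |a k| * c n k = ∑ k ∈ Finset.range K, |a k| * c n k + ∑' k, |a (k + K)| * c n (k + K) :=
      ((w4 n).sum_add_tsum_nat_add K).symm
    have e2 : ∑ k ∈ Finset.range K, |a k| * c n k ≤ m * ∑' k, c n k := by
      have e3 : ∑ k ∈ Finset.range K, |a k| * c n k = m * ∑ k ∈ Finset.range K, c n k := by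
        rw [Finset.mul_sum]
        refine Finset.sum_congr rfl fun k hk => ?_
        have e4 : a k = -m := if_pos (Finset.mem_range.1 hk)
        rw [e4, abs_neg, abs_of_pos hm]
      rw [e3]
      exact mul_le_mul_of_nonneg_left ((hc n).sum_le_tsum _ fun k _ => hc0 n k) hm.le
    have e3 : ∑' k, |a (k + K)| * c n (k + K) = ∑' k, c n (k + K) := by
      refine tsum_congr fun k => ?_
      have e4 : a (k + K) = 1 := if_neg (by omega)
      rw [e4, abs_one, one_mul]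
    have e5 : m * ∑' k, c n k ≤ (1 / 2 ^ K) * ∑' k, c n k :=
      mul_le_mul_of_nonneg_right hmK (tsum_nonneg fun k => hc0 n k)
    have e6 : (1 / 2 ^ K : ℝ) * (∑' k, c n k) + ∑' k, c n (k + K) < s := by
      have h := hK0 K hK
      interval_cases n
      · exact h.1
      · exact h.2
    rw [e1, e3]
    linarith

end

end Pool.Agent.VQ
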