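import Pool.Agent.helper93.VQ.Spec4c

/-!
# Row vq:RSL (MP_07c750_an): the unstable cone, growth and slopes along one orbit
-/

set_option autoImplicit false

open scoped MatrixGroups ContDiff Topology UpperHalfPlane ComplexConjugate ENNReal
open UpperHalfPlane MeasureTheory Filter Set

namespace Pool.Agent.VQ

open Pool.Agent.RS
open Pool.Agent.RPQ (mean)
open Pool.Agent.VQE (nm)

lemma RSL_m (u v U V : ℝ) (hu : |u| ≤ U) (hv : |v| ≤ V) : |u * v| ≤ U * V := by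
  rw [abs_mul]; exact mul_le_mul hu hv (abs_nonneg _) (le_trans (abs_nonneg _) hu)

/-- the quadratic form of the cone grows -/
lemma RSL_q (d r k p q x b c : ℝ) (hd : 0 < d) (hd' : d ≤ 1 / 10000) (hr : |r - 1| ≤ d) (hk : |k| ≤ d)
    (hp : |p| ≤ d * (|x| + |b| + |c|)) (hq : |q| ≤ d * (|x| + |b| + |c|)) :
    (1 / 625) * c ^ 2 - x ^ 2 - b ^ 2 ≤ (1 / 625) * (2 * c * (r * c + k * x / 2 - q / 2)) - 2 * x * (-(k * (b + c)) + p)
      - 2 * b * (-(r * b) + k * x / 2 + q / 2) := by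
  have hX := abs_nonneg x
  have hB := abs_nonneg b
  have hC := abs_nonneg c
  have eX : |x| ^ 2 = x ^ 2 := sq_abs x
  have eB : |b| ^ 2 = b ^ 2 := sq_abs b
  have eC : |c| ^ 2 = c ^ 2 := sq_abs c
  have h1 := abs_le.1 (RSL_m k (c * x) d (|c| * |x|) hk (RSL_m c x _ _ le_rfl le_rfl))
  have h2 := abs_le.1 (RSL_m c q |c| _ le_rfl hq)
  have h3 := abs_le.1 (RSL_m k (x * b) d (|x| * |b|) hk (RSL_m x b _ _ le_rfl le_rfl))
  have h4 := abs_le.1 (RSL_m x p |x| _ le_rfl hp)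
  have h5 := abs_le.1 (RSL_m b q |b| _ le_rfl hq)
  have h6 := abs_le.1 (RSL_m (r - 1) (c ^ 2) d (c ^ 2) hr (by rw [abs_of_nonneg (sq_nonneg c)]))
  have h7 := abs_le.1 (RSL_m (r - 1) (b ^ 2) d (b ^ 2) hr (by rw [abs_of_nonneg (sq_nonneg b)]))
  have a1 : |x| * |c| ≤ (x ^ 2 + c ^ 2) / 2 := by nlinarith [sq_nonneg (|x| - |c|)]
  have a2 : |b| * |c| ≤ (b ^ 2 + c ^ 2) / 2 := by nlinarith [sq_nonneg (|b| - |c|)]
  have a3 : |x| * |b| ≤ (x ^ 2 + b ^ 2) / 2 := by nlinarith [sq_nonneg (|x| - |b|)]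
  have key : (2 : ℝ) * d * |x| ^ 2 + d * |b| ^ 2 + d * (1 / 625) * |c| ^ 2 + d * (2 / 625 + 4) * (|x| * |c|)
      + d * (1 / 625 + 1) * (|b| * |c|) + 6 * d * (|x| * |b|) ≤ 9 * d * (x ^ 2 + b ^ 2 + c ^ 2) := by
    rw [eX, eB, eC]
    have b1 := mul_le_mul_of_nonneg_left a1 (show 0 ≤ d * (2 / 625 + 4) by positivity)
    have b2 := mul_le_mul_of_nonneg_left a2 (show 0 ≤ d * (1 / 625 + 1) by positivity)
    have b3 := mul_le_mul_of_nonneg_left a3 (show 0 ≤ 6 * d by positivity)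
    have b4 := mul_nonneg hd.le (sq_nonneg x)
    have b5 := mul_nonneg hd.le (sq_nonneg b)
    have b6 := mul_nonneg hd.le (sq_nonneg c)
    nlinarith
  have f1 : d * c ^ 2 ≤ 1 / 10000 * c ^ 2 := mul_le_mul_of_nonneg_right hd' (sq_nonneg c)
  have f2 : d * b ^ 2 ≤ 1 / 10000 * b ^ 2 := mul_le_mul_of_nonneg_right hd' (sq_nonneg b)
  have f3 : d * x ^ 2 ≤ 1 / 10000 * x ^ 2 := mul_le_mul_of_nonneg_right hd' (sq_nonneg x)
  have g1 := sq_nonneg x
  have g2 := sq_nonneg b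
  have g3 := sq_nonneg c
  nlinarith

/-- bounds for the unstable rate -/
lemma RSL_r (d r k q x b c : ℝ) (hd : 0 < d) (hr : |r - 1| ≤ d) (hk : |k| ≤ d)
    (hq : |q| ≤ d * (|x| + |b| + |c|)) (hc : 0 < c) (hx : |x| ≤ c / 25) (hb : |b| ≤ c / 25) :
    (1 - 2 * d) * c ≤ r * c + k * x / 2 - q / 2 ∧ r * c + k * x / 2 - q / 2 ≤ (1 + 2 * d) * c := by
  have h1 := abs_le.1 (RSL_m k x d (c / 25) hk hx)
  have h2 : |q| ≤ d * (27 / 25 * c) := le_trans hq (mul_le_mul_of_nonneg_left (by rw [abs_of_pos hc]; linarith) hd.le)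
  have h3 := abs_le.1 h2
  have h4 := abs_le.1 (RSL_m (r - 1) c d c hr (by rw [abs_of_pos hc]))
  have h5 : 0 < d * c := mul_pos hd hc
  constructor <;> nlinarith

/-- the slopes contract -/
lemma RSL_s (d r k p q x b c : ℝ) (hd : 0 < d) (hd' : d ≤ 1 / 10000) (hr : |r - 1| ≤ d) (hk : |k| ≤ d)
    (hp : |p| ≤ d * (|x| + |b| + |c|)) (hq : |q| ≤ d * (|x| + |b| + |c|)) (hc : 0 < c) (hx : |x| ≤ c / 25) (hb : |b| ≤ c / 25) :
    (2 * x * (-(k * (b + c)) + p) + 2 * b * (-(r * b) + k * x / 2 + q / 2)) * c - (x ^ 2 + b ^ 2) * (2 * (r * c + k * x / 2 - q / 2))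
      ≤ -(9 / 5) * (x ^ 2 + b ^ 2 - (10 * d) ^ 2 * c ^ 2) * c := by
  have hL := (RSL_r d r k q x b c hd hr hk hq hc hx hb).1
  have hX := abs_nonneg x
  have hB := abs_nonneg b
  have eX : |x| ^ 2 = x ^ 2 := sq_abs x
  have eB : |b| ^ 2 = b ^ 2 := sq_abs b
  have hp2 : |p| ≤ d * (27 / 25 * c) := le_trans hp (mul_le_mul_of_nonneg_left (by rw [abs_of_pos hc]; linarith) hd.le)
  have hq2 : |q| ≤ d * (27 / 25 * c) := le_trans hq (mul_le_mul_of_nonneg_left (by rw [abs_of_pos hc]; linarith) hd.le)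
  have hbc : |b + c| ≤ 26 / 25 * c := by
    refine le_trans (abs_add_le b c) ?_
    rw [abs_of_pos hc]; linarith
  have h1 := abs_le.1 (RSL_m x (k * (b + c)) |x| (d * (26 / 25 * c)) le_rfl (RSL_m k (b + c) _ _ hk hbc))
  have h2 := abs_le.1 (RSL_m x p |x| _ le_rfl hp2)
  have h3 := abs_le.1 (RSL_m b (k * x) |b| (d * (c / 25)) le_rfl (RSL_m k x _ _ hk hx))
  have h4 := abs_le.1 (RSL_m b q |b| _ le_rfl hq2)
  have h7 := abs_le.1 (RSL_m (r - 1) (b ^ 2) d (b ^ 2) hr (by rw [abs_of_nonneg (sq_nonneg b)]))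
  have g2 := sq_nonneg b
  have g1 := sq_nonneg x
  have f2 : d * b ^ 2 ≤ 1 / 10000 * b ^ 2 := mul_le_mul_of_nonneg_right hd' (sq_nonneg b)
  have f3 : d * x ^ 2 ≤ 1 / 10000 * x ^ 2 := mul_le_mul_of_nonneg_right hd' (sq_nonneg x)
  have hN : 2 * x * (-(k * (b + c)) + p) + 2 * b * (-(r * b) + k * x / 2 + q / 2) ≤ 5 * (d * c) * |x| + 2 * (d * c) * |b| := by
    have e1 : 0 ≤ (d * c) * |x| := mul_nonneg (mul_pos hd hc).le hX
    have e2 : 0 ≤ (d * c) * |b| := mul_nonneg (mul_pos hd hc).le hB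
    nlinarith
  have hM : 5 * (d * c) * |x| + 2 * (d * c) * |b| ≤ (1 / 10) * (x ^ 2 + b ^ 2) + (9 / 5) * ((10 * d) ^ 2 * c ^ 2) := by
    rw [← eX, ← eB]
    nlinarith [sq_nonneg (|x| - 25 * (d * c)), sq_nonneg (|b| - 10 * (d * c)), sq_nonneg (d * c)]
  have hS : (x ^ 2 + b ^ 2) * ((1 - 2 * d) * c) ≤ (x ^ 2 + b ^ 2) * (r * c + k * x / 2 - q / 2) :=
    mul_le_mul_of_nonneg_left hL (by positivity)
  have hT : (2 * x * (-(k * (b + c)) + p) + 2 * b * (-(r * b) + k * x / 2 + q / 2)) * c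
      ≤ ((1 / 10) * (x ^ 2 + b ^ 2) + (9 / 5) * ((10 * d) ^ 2 * c ^ 2)) * c := mul_le_mul_of_nonneg_right (le_trans hN hM) hc.le
  have hU : d * ((x ^ 2 + b ^ 2) * c) ≤ 1 / 10000 * ((x ^ 2 + b ^ 2) * c) := mul_le_mul_of_nonneg_right hd' (by positivity)
  have hV : 0 ≤ (x ^ 2 + b ^ 2) * c := by positivity
  nlinarith

/-- the abstract statement -/
theorem RSL_abs (d : ℝ) (x b c r k p q : ℝ → ℝ) (hd : 0 < d) (hd' : d ≤ 1 / 10000) (hr : ∀ t, |r t - 1| ≤ d) (hk : ∀ t, |k t| ≤ d)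
    (hp : ∀ t, |p t| ≤ d * (|x t| + |b t| + |c t|)) (hq : ∀ t, |q t| ≤ d * (|x t| + |b t| + |c t|))
    (dx : ∀ t, HasDerivAt x (-(k t * (b t + c t)) + p t) t) (db : ∀ t, HasDerivAt b (-(r t * b t) + k t * x t / 2 + q t / 2) t)
    (dc : ∀ t, HasDerivAt c (r t * c t + k t * x t / 2 - q t / 2) t) (c0 : 0 < c 0) (h0 : x 0 ^ 2 + b 0 ^ 2 ≤ (1 / 50) ^ 2 * c 0 ^ 2) :
    ∀ t : ℝ, 0 ≤ t → 0 < c t ∧ (∀ s : ℝ, 0 ≤ s → s ≤ t → Real.exp (99 / 100 * (t - s)) * c s ≤ c t ∧ c t ≤ Real.exp (101 / 100 * (t - s)) * c s) ∧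
    ∀ q : ℝ, q ≤ (1 / 50) ^ 2 → x 0 ^ 2 + b 0 ^ 2 ≤ q * c 0 ^ 2 → x t ^ 2 + b t ^ 2 ≤ (Real.exp (-(9 / 5 * t)) * q + (1 - Real.exp (-(9 / 5 * t))) * (10 * d) ^ 2) * c t ^ 2 := by
  -- step 1: the cone
  have dQ : ∀ t, HasDerivAt (fun t => Real.exp (-t) * ((1 / 625) * c t ^ 2 - x t ^ 2 - b t ^ 2))
      (Real.exp (-t) * (((1 / 625) * (2 * c t * (r t * c t + k t * x t / 2 - q t / 2)) - 2 * x t * (-(k t * (b t + c t)) + p t)
      - 2 * b t * (-(r t * b t) + k t * x t / 2 + q t / 2)) - ((1 / 625) * c t ^ 2 - x t ^ 2 - b t ^ 2))) t := by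
    intro t
    have e1 : HasDerivAt (fun t : ℝ => Real.exp (-t)) (-Real.exp (-t)) t := by
      have := (hasDerivAt_neg t).exp
      simpa using this
    have e2 := ((((dc t).pow 2).const_mul (1 / 625 : ℝ)).sub ((dx t).pow 2)).sub ((db t).pow 2)
    have e3 := e1.mul e2
    refine e3.congr_deriv ?_
    simp only [Pi.pow_apply, Pi.sub_apply]
    ring
  have hmono : MonotoneOn (fun t => Real.exp (-t) * ((1 / 625) * c t ^ 2 - x t ^ 2 - b t ^ 2)) (Ici 0) := by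
    refine monotoneOn_of_hasDerivWithinAt_nonneg (convex_Ici 0) (fun t _ => (dQ t).continuousAt.continuousWithinAt)
      (fun t _ => (dQ t).hasDerivWithinAt) (fun t _ => ?_)
    exact mul_nonneg (Real.exp_pos _).le (sub_nonneg.2 (RSL_q d (r t) (k t) (p t) (q t) (x t) (b t) (c t) hd hd' (hr t) (hk t) (hp t) (hq t)))
  have Q0 : 0 < (1 / 625) * c 0 ^ 2 - x 0 ^ 2 - b 0 ^ 2 := by
    have : 0 < c 0 ^ 2 := by positivity
    nlinarith
  have Qp : ∀ t : ℝ, 0 ≤ t → 0 < (1 / 625) * c t ^ 2 - x t ^ 2 - b t ^ 2 := by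
    intro t ht
    have h := hmono (mem_Ici.2 le_rfl) (mem_Ici.2 ht) ht
    simp only [neg_zero, Real.exp_zero, one_mul] at h
    have h2 : 0 < Real.exp (-t) * ((1 / 625) * c t ^ 2 - x t ^ 2 - b t ^ 2) := lt_of_lt_of_le Q0 h
    exact (mul_pos_iff_of_pos_left (Real.exp_pos _)).1 h2
  have hcne : ∀ t : ℝ, 0 ≤ t → c t ≠ 0 := by
    intro t ht h
    have := Qp t ht
    rw [h] at this
    nlinarith [sq_nonneg (x t), sq_nonneg (b t)]
  have cc : Continuous c := continuous_iff_continuousAt.2 fun t => (dc t).continuousAt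
  have hcp : ∀ t : ℝ, 0 ≤ t → 0 < c t := by
    intro t ht
    by_contra hneg
    have hneg' : c t ≤ 0 := not_lt.1 hneg
    obtain ⟨s, hs, hs0⟩ := intermediate_value_Icc' ht cc.continuousOn (show (0 : ℝ) ∈ Icc (c t) (c 0) from ⟨hneg', c0.le⟩)
    exact hcne s hs.1 hs0
  have hxb : ∀ t : ℝ, 0 ≤ t → |x t| ≤ c t / 25 ∧ |b t| ≤ c t / 25 := by
    intro t ht
    have h1 := Qp t ht
    have h2 := hcp t ht
    have h3 : 0 ≤ c t / 25 := by positivity
    constructor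
    · refine abs_le_of_sq_le_sq ?_ h3
      nlinarith [sq_nonneg (b t)]
    · refine abs_le_of_sq_le_sq ?_ h3
      nlinarith [sq_nonneg (x t)]
  -- step 2: growth
  have hrate : ∀ t : ℝ, 0 ≤ t → 99 / 100 * c t ≤ r t * c t + k t * x t / 2 - q t / 2 ∧ r t * c t + k t * x t / 2 - q t / 2 ≤ 101 / 100 * c t := by
    intro t ht
    have h := RSL_r d (r t) (k t) (q t) (x t) (b t) (c t) hd (hr t) (hk t) (hq t) (hcp t ht) (hxb t ht).1 (hxb t ht).2
    have h2 := hcp t ht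
    constructor
    · refine le_trans (mul_le_mul_of_nonneg_right ?_ h2.le) h.1
      linarith
    · refine le_trans h.2 (mul_le_mul_of_nonneg_right ?_ h2.le)
      linarith
  have dE : ∀ (a : ℝ) (t : ℝ), HasDerivAt (fun t => Real.exp (-(a * t)) * c t)
      (Real.exp (-(a * t)) * ((r t * c t + k t * x t / 2 - q t / 2) - a * c t)) t := by
    intro a t
    have e0 : HasDerivAt (fun t : ℝ => -(a * t)) (-a) t := by
      have e00 : HasDerivAt (fun t : ℝ => (-a) * t) (-a) t := by simpa using (hasDerivAt_id t).const_mul (-a)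
      rw [show (fun t : ℝ => -(a * t)) = fun t : ℝ => (-a) * t from funext fun t => (neg_mul a t).symm]
      exact e00
    refine (e0.exp.mul (dc t)).congr_deriv ?_
    ring
  have hm1 : MonotoneOn (fun t => Real.exp (-(99 / 100 * t)) * c t) (Ici 0) := by
    refine monotoneOn_of_hasDerivWithinAt_nonneg (convex_Ici 0) (fun t _ => (dE _ t).continuousAt.continuousWithinAt)
      (fun t _ => (dE _ t).hasDerivWithinAt) (fun t ht => ?_)
    rw [interior_Ici] at ht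
    exact mul_nonneg (Real.exp_pos _).le (sub_nonneg.2 (hrate t (le_of_lt ht)).1)
  have hm2 : AntitoneOn (fun t => Real.exp (-(101 / 100 * t)) * c t) (Ici 0) := by
    refine antitoneOn_of_hasDerivWithinAt_nonpos (convex_Ici 0) (fun t _ => (dE _ t).continuousAt.continuousWithinAt)
      (fun t _ => (dE _ t).hasDerivWithinAt) (fun t ht => ?_)
    rw [interior_Ici] at ht
    exact mul_nonpos_of_nonneg_of_nonpos (Real.exp_pos _).le (sub_nonpos.2 (hrate t (le_of_lt ht)).2)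
  -- step 3: slopes
  have dS : ∀ t : ℝ, 0 ≤ t → HasDerivAt (fun t => Real.exp (9 / 5 * t) * ((x t ^ 2 + b t ^ 2) / c t ^ 2 - (10 * d) ^ 2))
      (Real.exp (9 / 5 * t) * (((2 * x t * (-(k t * (b t + c t)) + p t) + 2 * b t * (-(r t * b t) + k t * x t / 2 + q t / 2)) * c t
        - (x t ^ 2 + b t ^ 2) * (2 * (r t * c t + k t * x t / 2 - q t / 2)) + 9 / 5 * (x t ^ 2 + b t ^ 2 - (10 * d) ^ 2 * c t ^ 2) * c t) / c t ^ 3)) t := by
    intro t ht
    have hne := hcne t ht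
    have e0 : HasDerivAt (fun t : ℝ => 9 / 5 * t) (9 / 5) t := by
      simpa using (hasDerivAt_id t).const_mul (9 / 5 : ℝ)
    have e2 := ((dx t).pow 2).add ((db t).pow 2)
    have e3 := (e2.div ((dc t).pow 2) (pow_ne_zero 2 hne)).sub_const ((10 * d) ^ 2)
    refine (e0.exp.mul e3).congr_deriv ?_
    simp only [Pi.pow_apply, Pi.add_apply, Pi.div_apply]
    field_simp
    ring
  have hm3 : AntitoneOn (fun t => Real.exp (9 / 5 * t) * ((x t ^ 2 + b t ^ 2) / c t ^ 2 - (10 * d) ^ 2)) (Ici 0) := by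
    refine antitoneOn_of_hasDerivWithinAt_nonpos (convex_Ici 0) (fun t ht => (dS t ht).continuousAt.continuousWithinAt)
      (fun t ht => (dS t (interior_subset ht)).hasDerivWithinAt) (fun t ht => ?_)
    have ht' := interior_subset ht
    have h := RSL_s d (r t) (k t) (p t) (q t) (x t) (b t) (c t) hd hd' (hr t) (hk t) (hp t) (hq t) (hcp t ht') (hxb t ht').1 (hxb t ht').2
    refine mul_nonpos_of_nonneg_of_nonpos (Real.exp_pos _).le (div_nonpos_of_nonpos_of_nonneg (by linarith) ?_)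
    have := hcp t ht'
    positivity
  intro t ht
  have hct := hcp t ht
  refine ⟨hct, ?_, ?_⟩
  · intro s hs hst
    have h1 := hm1 (mem_Ici.2 hs) (mem_Ici.2 ht) hst
    have h2 := hm2 (mem_Ici.2 hs) (mem_Ici.2 ht) hst
    simp only at h1 h2
    constructor
    · have e := mul_le_mul_of_nonneg_left h1 (Real.exp_pos (99 / 100 * t)).le
      rw [← mul_assoc, ← mul_assoc, ← Real.exp_add, ← Real.exp_add] at e
      rw [show 99 / 100 * t + -(99 / 100 * t) = 0 by ring, Real.exp_zero, one_mul] at e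
      rw [show 99 / 100 * (t - s) = 99 / 100 * t + -(99 / 100 * s) by ring]
      exact e
    · have e := mul_le_mul_of_nonneg_left h2 (Real.exp_pos (101 / 100 * t)).le
      rw [← mul_assoc, ← mul_assoc, ← Real.exp_add, ← Real.exp_add] at e
      rw [show 101 / 100 * t + -(101 / 100 * t) = 0 by ring, Real.exp_zero, one_mul] at e
      rw [show 101 / 100 * (t - s) = 101 / 100 * t + -(101 / 100 * s) by ring]
      exact e
  · intro w _ hw
    have h := hm3 (mem_Ici.2 le_rfl) (mem_Ici.2 ht) ht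
    simp only [mul_zero, Real.exp_zero, one_mul] at h
    have c02 : 0 < c 0 ^ 2 := by positivity
    have ct2 : 0 < c t ^ 2 := by positivity
    have h0' : (x 0 ^ 2 + b 0 ^ 2) / c 0 ^ 2 ≤ w := (div_le_iff₀ c02).2 hw
    have h1 : Real.exp (9 / 5 * t) * ((x t ^ 2 + b t ^ 2) / c t ^ 2 - (10 * d) ^ 2) ≤ w - (10 * d) ^ 2 := by linarith
    have e := mul_le_mul_of_nonneg_left h1 (Real.exp_pos (-(9 / 5 * t))).le
    rw [← mul_assoc, ← Real.exp_add, neg_add_cancel, Real.exp_zero, one_mul] at e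
    have h2 : (x t ^ 2 + b t ^ 2) / c t ^ 2 ≤ Real.exp (-(9 / 5 * t)) * w + (1 - Real.exp (-(9 / 5 * t))) * (10 * d) ^ 2 := by linarith
    exact (div_le_iff₀ ct2).1 h2

theorem RSL_proof : RSL_stmt := by
  intro d D h hd hd' E g x b c hE hV c0 h0
  refine RSL_abs d x b c (fun t => rho D.U E (D.fl E t g)) (fun t => kap D.U E (D.fl E t g))
    (fun t => dr D.U E (D.fl E t g) (x t) (b t) (c t)) (fun t => dk D.U E (D.fl E t g) (x t) (b t) (c t)) hd hd'
    (fun t => h.ro E _ hE) (fun t => h.ka E _ hE) (fun t => h.r0 E _ _ _ _ hE) (fun t => h.k0 E _ _ _ _ hE)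
    (fun t => ?_) (fun t => ?_) (fun t => ?_) c0 h0
  · exact (hV t _ _ _ _ rfl rfl rfl rfl).1
  · exact (hV t _ _ _ _ rfl rfl rfl rfl).2.1
  · exact (hV t _ _ _ _ rfl rfl rfl rfl).2.2

end Pool.Agent.VQ
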